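import Mathlib

/-! Differential forms and symplectic forms on the four-torus, as periodic forms on four-space. -/

namespace Pool.Agent.MP_be5fd0_gt

open scoped ContDiff

/-- A smooth differential `k`-form on the torus: a smooth form on four-space which is invariant
under all integer translations. -/
def IsForm {k : ℕ} (σ : (Fin 4 → ℝ) → (Fin 4 → ℝ) [⋀^Fin k]→L[ℝ] ℝ) : Prop :=
  ContDiff ℝ ∞ σ ∧ ∀ (n : Fin 4 → ℤ) (x : Fin 4 → ℝ), σ (x + fun i => (n i : ℝ)) = σ x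

/-- A symplectic form on the torus: a closed nondegenerate smooth two-form. -/
def IsSymp (σ : (Fin 4 → ℝ) → (Fin 4 → ℝ) [⋀^Fin 2]→L[ℝ] ℝ) : Prop :=
  IsForm σ ∧ extDeriv σ = 0 ∧ ∀ x u, u ≠ 0 → ∃ u', σ x ![u, u'] ≠ 0

/-- Two two-forms on the torus are cohomologous if they differ by the exterior derivative of a
smooth one-form on the torus. -/
def Cohom (σ σ' : (Fin 4 → ℝ) → (Fin 4 → ℝ) [⋀^Fin 2]→L[ℝ] ℝ) : Prop :=
  ∃ lam : (Fin 4 → ℝ) → (Fin 4 → ℝ) [⋀^Fin 1]→L[ℝ] ℝ, IsForm lam ∧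
    ∀ x, σ' x = σ x + extDeriv lam x

end Pool.Agent.MP_be5fd0_gt
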